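import Pool.Agent.H121.ME.Iface
import Pool.Agent.H717.Z987.WienB

/-! Proof of `S_simple` (project ME of helper121), written by helper962. -/

set_option autoImplicit false

open scoped BigOperators InnerProductSpace Topology ENNReal
open Filter MeasureTheory

namespace Pool.Agent.H962.ME

open Pool.Agent.Y662.TR (LL dv dv_self dv_ne inner_dv ll_ext)
open Pool.Agent.TH369.AN (Rz)
open Pool.Agent.TH369.MU (SpM ep zk)
open Pool.Agent.H987.Z
open Pool.Agent.H121.Z987
open Pool.Agent.H717.Z987

variable {ι : Type}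

/-- spectral measures: Borel transform and eigenvectors -/
theorem spec (H : LL ι →L[ℂ] LL ι) (hH : IsSelfAdjoint H) (y : ι) :
    ∃ m : Measure ℝ, IsFiniteMeasure m ∧
      (∀ (k : ℕ) (E : ℝ), Fm m (ep k) E = Gr H (zk E k) y y) ∧
      (∀ (E : ℝ) (ψ : LL ι), H ψ = (E : ℂ) • ψ → ψ y ≠ 0 → m {E} ≠ 0) := by
  obtain ⟨m, hf, -, -, hcfc, he, -⟩ :=
    Pool.Agent.H54R3.Spec508.exists_spectral H hH (dv y)
  refine ⟨m, hf, fun k E => ?_, fun E ψ h1 h2 => he E ψ h1 (by rwa [inner_dv])⟩
  have h := Pool.Agent.TH369.AN.spec_borel H hH (dv y) m hcfc (zk E k)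
    (by rw [zk_im]; exact (ep_pos' k).ne')
  rw [inner_dv] at h
  unfold Gr
  rw [h]
  rfl

/-- a common atom of the spectral measures of one site for two values of the potential there -/
theorem one_atom (A A' : LL ι →L[ℂ] LL ι) (hA : IsSelfAdjoint A) (hA' : IsSelfAdjoint A')
    (y : ι) (c : ℂ) (hc : c ≠ 0) (h : ∀ u : LL ι, A' u = A u + (c * u y) • dv y)
    (m m' : Measure ℝ) [IsFiniteMeasure m] [IsFiniteMeasure m']
    (hm : ∀ (k : ℕ) (E : ℝ), Fm m (ep k) E = Gr A (zk E k) y y)
    (hm' : ∀ (k : ℕ) (E : ℝ), Fm m' (ep k) E = Gr A' (zk E k) y y) (t : ℝ) :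
    m.real {t} = 0 ∨ m'.real {t} = 0 := by
  have h1 := Fm_atom m t
  have h2 := Fm_atom m' t
  have h3 : ∀ k, -(Complex.I * (ep k : ℂ)) * (-(Complex.I * (ep k : ℂ)) * Fm m' (ep k) t) +
      c * ((-(Complex.I * (ep k : ℂ)) * Fm m' (ep k) t) *
        (-(Complex.I * (ep k : ℂ)) * Fm m (ep k) t)) =
      -(Complex.I * (ep k : ℂ)) * (-(Complex.I * (ep k : ℂ)) * Fm m (ep k) t) := by
    intro k
    have h4 := rank_one A A' hA hA' y c h (zk t k) (by rw [zk_im]; exact (ep_pos' k).ne') y
    rw [hm, hm']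
    linear_combination (Complex.I * (ep k : ℂ)) ^ 2 * h4
  have h5 : Tendsto (fun k => -(Complex.I * (ep k : ℂ))) atTop (𝓝 0) := by
    have h4 : Tendsto (fun k => (ep k : ℂ)) atTop (𝓝 ((0 : ℝ) : ℂ)) :=
      (Complex.continuous_ofReal.tendsto _).comp ep_lim
    have := (h4.const_mul Complex.I).neg
    simpa using this
  have l1 := (h5.mul h2).add ((h2.mul h1).const_mul c)
  have l2 := h5.mul h1
  have l3 := tendsto_nhds_unique (l1.congr h3) l2
  rw [zero_mul, zero_mul, zero_add] at l3
  rcases mul_eq_zero.1 l3 with h6 | h6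
  · exact absurd h6 hc
  · rcases mul_eq_zero.1 h6 with h7 | h7
    · exact Or.inr (by exact_mod_cast h7)
    · exact Or.inl (by exact_mod_cast h7)

open Classical in
/-- almost surely no common atom -/
theorem no_common [Countable ι] (T : LL ι →L[ℂ] LL ι) (hT : Rs T) (lam : ℝ) (hlam : 0 < lam)
    (μ : Measure ℝ) [IsProbabilityMeasure μ] (hμ : ∀ᵐ v ∂μ, |v| ≤ 1) (hμ0 : ∀ v : ℝ, μ {v} = 0)
    (x y : ι) :
    ∀ᵐ ω ∂(Measure.infinitePi fun _ : ι => μ), ∀ (t : ℝ) (u w : LL ι),
      HH T lam ω u = (t : ℂ) • u → u y ≠ 0 →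
      HH T lam (Function.update ω y 0) w = (t : ℂ) • w → w x = 0 := by
  choose M hMf hMF hMe using fun (ω : ι → ℝ) (y : ι) => spec (HH T lam ω) (HH_rs T hT lam ω).sa y
  obtain ⟨N, hN⟩ : ∃ N : (ι → ℝ) → Measure ℝ, N = fun ω => M (Function.update ω y 0) x := ⟨_, rfl⟩
  have hNf : ∀ ω, IsFiniteMeasure (N ω) := fun ω => by rw [hN]; exact hMf _ _
  have hNF : ∀ ω (k : ℕ) (E : ℝ), Fm (N ω) (ep k) E =
      Gr (HH T lam (Function.update ω y 0)) (zk E k) x x := fun ω k E => by
    rw [hN]; exact hMF _ _ k E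
  obtain ⟨D, hD⟩ : ∃ D : (ι → ℝ) → ℂ,
      D = fun ω => ∫ p : ℝ × ℝ, kl p.1 p.2 ∂((M ω y).prod (N ω)) := ⟨_, rfl⟩
  -- measurability
  have hupd : Measurable fun ω : ι → ℝ => Function.update ω y (0 : ℝ) :=
    (update_meas y).comp (measurable_id.prodMk measurable_const)
  have hJm : ∀ k, Measurable fun ω => J (M ω y) (N ω) k := by
    intro k
    have h1 : (fun ω => J (M ω y) (N ω) k) = fun ω => ∫ E, (ep k : ℂ) *
        (Gr (HH T lam ω) (zk E k) y y * (starRingEnd ℂ)
          (Gr (HH T lam (Function.update ω y 0)) (zk E k) x x)) ∂Q := by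
      funext ω
      unfold J
      simp only [hMF, hNF]
    rw [h1]
    have g1 : Measurable fun p : (ι → ℝ) × ℝ => Gr (HH T lam p.1) (zk p.2 k) y y := by
      have h2 : Measurable fun p : (ι → ℝ) × ℝ => (p.2, p.1) :=
        measurable_snd.prodMk measurable_fst
      have h3 := (Gr_meas T hT lam k y y).comp h2
      simpa only [Function.comp_def, Function.uncurry_apply_pair] using h3
    have g2 : Measurable fun p : (ι → ℝ) × ℝ =>
        Gr (HH T lam (Function.update p.1 y 0)) (zk p.2 k) x x := by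
      have h2 : Measurable fun p : (ι → ℝ) × ℝ => (p.2, Function.update p.1 y (0 : ℝ)) :=
        measurable_snd.prodMk (hupd.comp measurable_fst)
      have h3 := (Gr_meas T hT lam k x x).comp h2
      simpa only [Function.comp_def, Function.uncurry_apply_pair] using h3
    have g3 : Measurable fun p : (ι → ℝ) × ℝ => (ep k : ℂ) *
        (Gr (HH T lam p.1) (zk p.2 k) y y * (starRingEnd ℂ)
          (Gr (HH T lam (Function.update p.1 y 0)) (zk p.2 k) x x)) :=
      (g1.mul (Complex.continuous_conj.measurable.comp g2)).const_mul _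
    exact (g3.stronglyMeasurable.integral_prod_right' (ν := Q)).measurable
  have hlim : ∀ ω, Tendsto (fun k => J (M ω y) (N ω) k) atTop (𝓝 (D ω)) := by
    intro ω
    have := hMf ω y
    have := hNf ω
    rw [hD]
    exact J_lim0 (M ω y) (N ω)
  have hDm : Measurable D := measurable_of_tendsto_metrizable hJm (tendsto_pi_nhds.2 hlim)
  -- the value
  have hval : ∀ ω, D ω = ((Real.pi * ∑' t : {t : ℝ | N ω {t} ≠ 0},
      wt t * ((M ω y).real {(t : ℝ)} * (N ω).real {(t : ℝ)}) : ℝ) : ℂ) := by
    intro ω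
    have := hMf ω y
    have := hNf ω
    rw [hD]
    exact kl_sum (M ω y) (N ω) _ (fin_atoms (N ω)) (fun t ht => by simpa using ht)
  -- resampling
  have hz : ∀ ω, ∫⁻ v, ENNReal.ofReal (D (Function.update ω y v)).re ∂μ = 0 := by
    intro ω
    have hN0 : ∀ v, N (Function.update ω y v) = N ω := by
      intro v
      rw [hN]
      simp only [Function.update_idem]
    have hSc : {t : ℝ | N ω {t} ≠ 0}.Countable := by
      have := hNf ω
      exact fin_atoms (N ω)
    have hex : ∀ t : ℝ,
        Set.Subsingleton {v : ℝ | |v| ≤ 1 ∧ M (Function.update ω y v) y {t} ≠ 0} := by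
      rintro t v ⟨hv, hv1⟩ v' ⟨hv', hv1'⟩
      by_contra hne
      have i1 := hMf (Function.update ω y v) y
      have i2 := hMf (Function.update ω y v') y
      have h := one_atom (HH T lam (Function.update ω y v)) (HH T lam (Function.update ω y v'))
        (HH_rs T hT lam _).sa (HH_rs T hT lam _).sa y ((lam * v' - lam * v : ℝ) : ℂ)
        (by
          rw [Ne, Complex.ofReal_eq_zero, ← mul_sub, mul_eq_zero, not_or]
          exact ⟨hlam.ne', fun h => hne (by linarith)⟩)
        (fun u => by
          rw [HH_update T lam ω y v' hv' u, HH_update T lam ω y v hv u, add_assoc, ← add_smul]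
          congr 2
          push_cast
          ring)
        (M (Function.update ω y v) y) (M (Function.update ω y v') y)
        (hMF _ _) (hMF _ _) t
      rcases h with h | h
      · rw [measureReal_def, ENNReal.toReal_eq_zero_iff] at h
        rcases h with h | h
        · exact hv1 h
        · exact measure_ne_top _ _ h
      · rw [measureReal_def, ENNReal.toReal_eq_zero_iff] at h
        rcases h with h | h
        · exact hv1' h
        · exact measure_ne_top _ _ h
    have hnull : μ (⋃ t ∈ {t : ℝ | N ω {t} ≠ 0},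
        {v : ℝ | |v| ≤ 1 ∧ M (Function.update ω y v) y {t} ≠ 0}) = 0 := by
      rw [measure_biUnion_null_iff hSc]
      intro t _
      rcases (hex t).eq_empty_or_singleton with h | ⟨v, h⟩
      · rw [h, measure_empty]
      · rw [h, hμ0]
    have hae : (fun v => ENNReal.ofReal (D (Function.update ω y v)).re) =ᵐ[μ] fun _ => 0 := by
      filter_upwards [hμ, compl_mem_ae_iff.2 hnull] with v hv hv2
      rw [hval, Complex.ofReal_re]
      have h0 : ∀ t : {t : ℝ | N (Function.update ω y v) {t} ≠ 0},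
          wt t * ((M (Function.update ω y v) y).real {(t : ℝ)} *
            (N (Function.update ω y v)).real {(t : ℝ)}) = 0 := by
        rintro ⟨t, ht⟩
        have ht' : N ω {t} ≠ 0 := by
          have := hN0 v
          rw [← this]
          exact ht
        have hM0 : M (Function.update ω y v) y {t} = 0 := by
          by_contra hne
          apply hv2
          simp only [Set.mem_iUnion]
          exact ⟨t, ht', hv, hne⟩
        simp only
        rw [measureReal_def, hM0]
        simp
      rw [tsum_congr h0]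
      simp
    rw [lintegral_congr_ae hae]
    simp
  have hDm2 : Measurable fun ω => ENNReal.ofReal (D ω).re :=
    (Complex.measurable_re.comp hDm).ennreal_ofReal
  have h2 := lint_resample μ y (fun ω => ENNReal.ofReal (D ω).re) hDm2
  simp only [hz, lintegral_zero] at h2
  rw [lintegral_eq_zero_iff hDm2] at h2
  filter_upwards [h2] with ω hω t u w hu huy hw
  have i1 := hMf ω y
  have i2 := hNf ω
  by_contra hwx
  have a1 : M ω y {t} ≠ 0 := hMe ω y t u hu huy
  have a2 : N ω {t} ≠ 0 := by
    rw [hN]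
    exact hMe _ x t w hw hwx
  have h3 : (D ω).re ≤ 0 := by
    simpa using hω
  rw [hval, Complex.ofReal_re] at h3
  have hs := atoms_summable (M ω y) (N ω) {t : ℝ | N ω {t} ≠ 0} (fin_atoms (N ω))
  have h4 : 0 < ∑' t : {t : ℝ | N ω {t} ≠ 0},
      wt t * ((M ω y).real {(t : ℝ)} * (N ω).real {(t : ℝ)}) := by
    refine hs.tsum_pos (fun t => ?_) ⟨t, a2⟩ ?_
    · exact mul_nonneg (wt_pos _).le (mul_nonneg measureReal_nonneg measureReal_nonneg)
    · refine mul_pos (wt_pos _) (mul_pos ?_ ?_)
      · exact ENNReal.toReal_pos a1 (measure_ne_top _ _)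
      · exact ENNReal.toReal_pos a2 (measure_ne_top _ _)
  have h5 := mul_pos Real.pi_pos h4
  linarith

open Classical in
/-- simplicity of the eigenvalues -/
theorem simple : Pool.Agent.H121.ME.S_simple := by
  intro ι _ T hT lam hlam μ _ hμ hμ0
  have h1 : ∀ᵐ ω ∂(Measure.infinitePi fun _ : ι => μ), ∀ (x y : ι) (t : ℝ) (u w : LL ι),
      HH T lam ω u = (t : ℂ) • u → u y ≠ 0 →
      HH T lam (Function.update ω y 0) w = (t : ℂ) • w → w x = 0 := by
    rw [ae_all_iff]
    intro x
    rw [ae_all_iff]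
    intro y
    exact no_common T hT lam hlam μ hμ hμ0 x y
  filter_upwards [h1] with ω hω t u v hu hv hu0
  obtain ⟨y, hy⟩ : ∃ y, u y ≠ 0 := by
    by_contra hcon
    push Not at hcon
    exact hu0 (ll_ext hcon)
  refine ⟨v y / u y, ?_⟩
  -- `w = v y • u - u y • v`
  have hwH : HH T lam ω (v y • u - u y • v) = (t : ℂ) • (v y • u - u y • v) := by
    rw [map_sub, map_smul, map_smul, hu, hv, smul_sub, smul_comm (v y), smul_comm (u y)]
  have hwy : (v y • u - u y • v : LL ι) y = 0 := by
    change v y * u y - u y * v y = 0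
    ring
  have hwH2 : HH T lam (Function.update ω y 0) (v y • u - u y • v) =
      (t : ℂ) • (v y • u - u y • v) := by
    rw [← hwH]
    apply ll_ext
    intro x
    rw [HH_apply, HH_apply]
    by_cases h : x = y
    · subst h
      rw [hwy, mul_zero, mul_zero]
    · rw [Function.update_of_ne h]
  have hw0 : (v y • u - u y • v : LL ι) = 0 := by
    apply ll_ext
    intro x
    exact hω x y t u _ hu hy hwH2
  rw [sub_eq_zero] at hw0
  rw [div_eq_inv_mul, mul_smul, hw0, smul_smul, inv_mul_cancel₀ hy, one_smul]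

end Pool.Agent.H962.ME
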